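import Mathlib

set_option autoImplicit false

namespace Pool.Agent.Results.MP_9610b2_co.Counterexample

open Finset

section defs
variable {n m : ℕ} (ends : Fin m → Fin n × Fin n)

/-- Edge `e` of the multigraph has `v` as an end vertex. -/
def Inc (e : Fin m) (v : Fin n) : Prop := (ends e).1 = v ∨ (ends e).2 = v

instance (e : Fin m) (v : Fin n) : Decidable (Inc ends e v) := by unfold Inc; infer_instance

/-- Maximum degree (parallel edges counted with multiplicity). -/
def maxDeg : ℕ := univ.sup fun v => (univ.filter fun e => Inc ends e v).card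

/-- The simple graph underlying the multigraph with the edges of `S` deleted. -/
def del (S : Set (Fin m)) : SimpleGraph (Fin n) :=
  SimpleGraph.fromRel fun a b => ∃ e, e ∉ S ∧ ends e = (a, b)

/-- Deleting `S` increases the number of connected components. -/
def Cut (S : Set (Fin m)) : Prop :=
  Nat.card (del ends ∅).ConnectedComponent < Nat.card (del ends S).ConnectedComponent

/-- Bridgeless, and no 2-edge-cut consists of two edges with a common end vertex. -/
def Admissible : Prop :=
  (∀ e, ¬ Cut ends {e}) ∧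
    ∀ e f, e ≠ f → (∃ v, Inc ends e v ∧ Inc ends f v) → ¬ Cut ends {e, f}

/-- A rich `k`-flow exists: an orientation `o` (each edge points to its second end if `o e`,
else to its first end) and integer values with conservation, `0 < |φ e| < k`, and different
absolute values on adjacent edges. -/
def HasRichFlow (k : ℕ) : Prop :=
  ∃ (o : Fin m → Bool) (φ : Fin m → ℤ),
    (∀ v, ∑ e ∈ univ.filter (fun e => (if o e then (ends e).2 else (ends e).1) = v), φ e =
      ∑ e ∈ univ.filter (fun e => (if o e then (ends e).1 else (ends e).2) = v), φ e) ∧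
    (∀ e, φ e ≠ 0 ∧ |φ e| < k) ∧
    ∀ e f, e ≠ f → (∃ v, Inc ends e v ∧ Inc ends f v) → |φ e| ≠ |φ f|

end defs

def EL : List (Fin 15 × Fin 15) := [(0, 1), (0, 1), (0, 1), (1, 3), (4, 3), (4, 3), (3, 5), (3, 5), (5, 4), (5, 4), (4, 2), (1, 6), (7, 6), (7, 6), (6, 8), (6, 8), (8, 7), (8, 7), (7, 2), (2, 9), (10, 9), (10, 9), (9, 11), (9, 11), (11, 10), (11, 10), (10, 0), (2, 12), (13, 12), (13, 12), (12, 14), (12, 14), (14, 13), (14, 13), (13, 0)]

def ends (e : Fin 35) : Fin 15 × Fin 15 := EL.getD e (0, 0)

def R : List ℕ := [1, 2, 3, 4, 5, 6, 7]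

def ok (x1 x2 x3 x4 x5 x6 x7 S : ℕ) : Prop :=
  (S = x4 + x5 ∨ S + x4 = x5 ∨ S + x5 = x4) ∧ (S = x6 + x7 ∨ S + x6 = x7 ∨ S + x7 = x6) ∧
  (S = x1 + x2 + x3 ∨ S + x1 = x2 + x3 ∨ S + x2 = x1 + x3 ∨ S + x3 = x1 + x2 ∨
    S + x1 + x2 = x3 ∨ S + x1 + x3 = x2 ∨ S + x2 + x3 = x1)

instance (x1 x2 x3 x4 x5 x6 x7 S : ℕ) : Decidable (ok x1 x2 x3 x4 x5 x6 x7 S) := by
  unfold ok; infer_instance

def chk : Bool := R.all fun x1 => R.all fun x2 => [x1].contains x2 ||
  R.all fun x3 => [x1, x2].contains x3 || R.all fun x4 => [x1, x2, x3].contains x4 ||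
  R.all fun x5 => [x1, x2, x3, x4].contains x5 || R.all fun x6 => [x1, x2, x3, x4, x5].contains x6 ||
  R.all fun x7 => [x1, x2, x3, x4, x5, x6].contains x7 ||
  ((x1 != 5 && (x4 == 5 || x5 == 5 || x6 == 5 || x7 == 5)) ||
    [x4 + x5, x4 - x5, x5 - x4].all fun S => !decide (ok x1 x2 x3 x4 x5 x6 x7 S))

lemma chk_true : chk = true := by decide +kernel

lemma ok_of (a1 a2 a3 b1 b2 c1 c2 : ℤ) (h1 : a1 + a2 + a3 = b1 + b2) (h2 : c1 + c2 = b1 + b2) :
    ok a1.natAbs a2.natAbs a3.natAbs b1.natAbs b2.natAbs c1.natAbs c2.natAbs (b1 + b2).natAbs := by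
  refine ⟨?_, ?_, ?_⟩
  · clear h1 h2; omega
  · rw [← h2]; clear h1 h2; omega
  · rw [← h1]; clear h1 h2; omega

lemma tri (a1 a2 a3 b1 b2 c1 c2 : ℤ) (r1 : a1.natAbs ∈ R) (r2 : a2.natAbs ∈ R)
    (r3 : a3.natAbs ∈ R) (r4 : b1.natAbs ∈ R)
    (r5 : b2.natAbs ∈ R) (r6 : c1.natAbs ∈ R) (r7 : c2.natAbs ∈ R) (h1 : a1 + a2 + a3 = b1 + b2)
    (h2 : c1 + c2 = b1 + b2)
    (d0 : a1.natAbs ≠ a2.natAbs)
    (d1 : a1.natAbs ≠ a3.natAbs)
    (d2 : a1.natAbs ≠ b1.natAbs)
    (d3 : a1.natAbs ≠ b2.natAbs)
    (d4 : a1.natAbs ≠ c1.natAbs)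
    (d5 : a1.natAbs ≠ c2.natAbs)
    (d6 : a2.natAbs ≠ a3.natAbs)
    (d7 : a2.natAbs ≠ b1.natAbs)
    (d8 : a2.natAbs ≠ b2.natAbs)
    (d9 : a2.natAbs ≠ c1.natAbs)
    (d10 : a2.natAbs ≠ c2.natAbs)
    (d11 : a3.natAbs ≠ b1.natAbs)
    (d12 : a3.natAbs ≠ b2.natAbs)
    (d13 : a3.natAbs ≠ c1.natAbs)
    (d14 : a3.natAbs ≠ c2.natAbs)
    (d15 : b1.natAbs ≠ b2.natAbs)
    (d16 : b1.natAbs ≠ c1.natAbs)
    (d17 : b1.natAbs ≠ c2.natAbs)
    (d18 : b2.natAbs ≠ c1.natAbs)
    (d19 : b2.natAbs ≠ c2.natAbs)
    (d20 : c1.natAbs ≠ c2.natAbs)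
    : a1.natAbs ≠ 5 ∧ (b1.natAbs = 5 ∨ b2.natAbs = 5 ∨ c1.natAbs = 5 ∨ c2.natAbs = 5) := by
  have hok := ok_of a1 a2 a3 b1 b2 c1 c2 h1 h2
  have hS : (b1 + b2).natAbs ∈ [b1.natAbs + b2.natAbs, b1.natAbs - b2.natAbs,
      b2.natAbs - b1.natAbs] := by
    have := hok.1
    generalize (b1 + b2).natAbs = S at this
    generalize b1.natAbs = x, b2.natAbs = y at this
    simp only [List.mem_cons, List.not_mem_nil, or_false]
    clear * - this
    omega
  have h := chk_true
  simp only [chk, List.all_eq_true, Bool.or_eq_true] at h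
  have g2 := (h _ r1 _ r2).resolve_left (by simp [d0.symm])
  have g3 := (g2 _ r3).resolve_left (by simp [d1.symm, d6.symm])
  have g4 := (g3 _ r4).resolve_left (by simp [d2.symm, d7.symm, d11.symm])
  have g5 := (g4 _ r5).resolve_left (by simp [d3.symm, d8.symm, d12.symm, d15.symm])
  have g6 := (g5 _ r6).resolve_left (by simp [d4.symm, d9.symm, d13.symm, d16.symm, d18.symm])
  have g7 := (g6 _ r7).resolve_left
    (by simp [d5.symm, d10.symm, d14.symm, d17.symm, d19.symm, d20.symm])
  rcases g7 with g | g
  · simpa [or_assoc] using g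
  · have := g _ hS
    simp [hok] at this

lemma noflow (ψ : Fin 35 → ℤ)
    (hc : ∀ v, ∑ e ∈ univ.filter (fun e => (ends e).2 = v), ψ e =
      ∑ e ∈ univ.filter (fun e => (ends e).1 = v), ψ e)
    (hR : ∀ e, (ψ e).natAbs ∈ R)
    (hd : ∀ e f, e ≠ f → (∃ v, Inc ends e v ∧ Inc ends f v) → (ψ e).natAbs ≠ (ψ f).natAbs) :
    False := by
  have c0 := hc 0
  rw [show univ.filter (fun e => (ends e).2 = 0) = {26, 34} by decide +kernel,
    show univ.filter (fun e => (ends e).1 = 0) = {0, 1, 2} by decide +kernel] at c0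
  simp at c0
  have c1 := hc 1
  rw [show univ.filter (fun e => (ends e).2 = 1) = {0, 1, 2} by decide +kernel,
    show univ.filter (fun e => (ends e).1 = 1) = {3, 11} by decide +kernel] at c1
  simp at c1
  have c2 := hc 2
  rw [show univ.filter (fun e => (ends e).2 = 2) = {10, 18} by decide +kernel,
    show univ.filter (fun e => (ends e).1 = 2) = {19, 27} by decide +kernel] at c2
  simp at c2
  have c3 := hc 3
  rw [show univ.filter (fun e => (ends e).2 = 3) = {3, 4, 5} by decide +kernel,
    show univ.filter (fun e => (ends e).1 = 3) = {6, 7} by decide +kernel] at c3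
  simp at c3
  have c4 := hc 4
  rw [show univ.filter (fun e => (ends e).2 = 4) = {8, 9} by decide +kernel,
    show univ.filter (fun e => (ends e).1 = 4) = {4, 5, 10} by decide +kernel] at c4
  simp at c4
  have c5 := hc 5
  rw [show univ.filter (fun e => (ends e).2 = 5) = {6, 7} by decide +kernel,
    show univ.filter (fun e => (ends e).1 = 5) = {8, 9} by decide +kernel] at c5
  simp at c5
  have c6 := hc 6
  rw [show univ.filter (fun e => (ends e).2 = 6) = {11, 12, 13} by decide +kernel,
    show univ.filter (fun e => (ends e).1 = 6) = {14, 15} by decide +kernel] at c6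
  simp at c6
  have c7 := hc 7
  rw [show univ.filter (fun e => (ends e).2 = 7) = {16, 17} by decide +kernel,
    show univ.filter (fun e => (ends e).1 = 7) = {12, 13, 18} by decide +kernel] at c7
  simp at c7
  have c8 := hc 8
  rw [show univ.filter (fun e => (ends e).2 = 8) = {14, 15} by decide +kernel,
    show univ.filter (fun e => (ends e).1 = 8) = {16, 17} by decide +kernel] at c8
  simp at c8
  have c9 := hc 9
  rw [show univ.filter (fun e => (ends e).2 = 9) = {19, 20, 21} by decide +kernel,
    show univ.filter (fun e => (ends e).1 = 9) = {22, 23} by decide +kernel] at c9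
  simp at c9
  have c10 := hc 10
  rw [show univ.filter (fun e => (ends e).2 = 10) = {24, 25} by decide +kernel,
    show univ.filter (fun e => (ends e).1 = 10) = {20, 21, 26} by decide +kernel] at c10
  simp at c10
  have c11 := hc 11
  rw [show univ.filter (fun e => (ends e).2 = 11) = {22, 23} by decide +kernel,
    show univ.filter (fun e => (ends e).1 = 11) = {24, 25} by decide +kernel] at c11
  simp at c11
  have c12 := hc 12
  rw [show univ.filter (fun e => (ends e).2 = 12) = {27, 28, 29} by decide +kernel,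
    show univ.filter (fun e => (ends e).1 = 12) = {30, 31} by decide +kernel] at c12
  simp at c12
  have c13 := hc 13
  rw [show univ.filter (fun e => (ends e).2 = 13) = {32, 33} by decide +kernel,
    show univ.filter (fun e => (ends e).1 = 13) = {28, 29, 34} by decide +kernel] at c13
  simp at c13
  have c14 := hc 14
  rw [show univ.filter (fun e => (ends e).2 = 14) = {30, 31} by decide +kernel,
    show univ.filter (fun e => (ends e).1 = 14) = {32, 33} by decide +kernel] at c14
  simp at c14
  have l0 : ψ 3 = ψ 10 := by linarith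
  have l1 : ψ 11 = ψ 18 := by linarith
  have l2 : ψ 19 = ψ 26 := by linarith
  have l3 : ψ 27 = ψ 34 := by linarith
  have t0 := tri (ψ 3) (ψ 4) (ψ 5) (ψ 6) (ψ 7) (ψ 8) (ψ 9)
    (hR 3) (hR 4) (hR 5) (hR 6) (hR 7) (hR 8) (hR 9)
    (by linarith) (by linarith)
    (hd 3 4 (by decide +kernel) (by decide +kernel))
    (hd 3 5 (by decide +kernel) (by decide +kernel))
    (hd 3 6 (by decide +kernel) (by decide +kernel))
    (hd 3 7 (by decide +kernel) (by decide +kernel))
    (by rw [l0]; exact hd 10 8 (by decide +kernel) (by decide +kernel))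
    (by rw [l0]; exact hd 10 9 (by decide +kernel) (by decide +kernel))
    (hd 4 5 (by decide +kernel) (by decide +kernel))
    (hd 4 6 (by decide +kernel) (by decide +kernel))
    (hd 4 7 (by decide +kernel) (by decide +kernel))
    (hd 4 8 (by decide +kernel) (by decide +kernel))
    (hd 4 9 (by decide +kernel) (by decide +kernel))
    (hd 5 6 (by decide +kernel) (by decide +kernel))
    (hd 5 7 (by decide +kernel) (by decide +kernel))
    (hd 5 8 (by decide +kernel) (by decide +kernel))
    (hd 5 9 (by decide +kernel) (by decide +kernel))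
    (hd 6 7 (by decide +kernel) (by decide +kernel))
    (hd 6 8 (by decide +kernel) (by decide +kernel))
    (hd 6 9 (by decide +kernel) (by decide +kernel))
    (hd 7 8 (by decide +kernel) (by decide +kernel))
    (hd 7 9 (by decide +kernel) (by decide +kernel))
    (hd 8 9 (by decide +kernel) (by decide +kernel))
  have t1 := tri (ψ 11) (ψ 12) (ψ 13) (ψ 14) (ψ 15) (ψ 16) (ψ 17)
    (hR 11) (hR 12) (hR 13) (hR 14) (hR 15) (hR 16) (hR 17)
    (by linarith) (by linarith)
    (hd 11 12 (by decide +kernel) (by decide +kernel))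
    (hd 11 13 (by decide +kernel) (by decide +kernel))
    (hd 11 14 (by decide +kernel) (by decide +kernel))
    (hd 11 15 (by decide +kernel) (by decide +kernel))
    (by rw [l1]; exact hd 18 16 (by decide +kernel) (by decide +kernel))
    (by rw [l1]; exact hd 18 17 (by decide +kernel) (by decide +kernel))
    (hd 12 13 (by decide +kernel) (by decide +kernel))
    (hd 12 14 (by decide +kernel) (by decide +kernel))
    (hd 12 15 (by decide +kernel) (by decide +kernel))
    (hd 12 16 (by decide +kernel) (by decide +kernel))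
    (hd 12 17 (by decide +kernel) (by decide +kernel))
    (hd 13 14 (by decide +kernel) (by decide +kernel))
    (hd 13 15 (by decide +kernel) (by decide +kernel))
    (hd 13 16 (by decide +kernel) (by decide +kernel))
    (hd 13 17 (by decide +kernel) (by decide +kernel))
    (hd 14 15 (by decide +kernel) (by decide +kernel))
    (hd 14 16 (by decide +kernel) (by decide +kernel))
    (hd 14 17 (by decide +kernel) (by decide +kernel))
    (hd 15 16 (by decide +kernel) (by decide +kernel))
    (hd 15 17 (by decide +kernel) (by decide +kernel))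
    (hd 16 17 (by decide +kernel) (by decide +kernel))
  have t2 := tri (ψ 19) (ψ 20) (ψ 21) (ψ 22) (ψ 23) (ψ 24) (ψ 25)
    (hR 19) (hR 20) (hR 21) (hR 22) (hR 23) (hR 24) (hR 25)
    (by linarith) (by linarith)
    (hd 19 20 (by decide +kernel) (by decide +kernel))
    (hd 19 21 (by decide +kernel) (by decide +kernel))
    (hd 19 22 (by decide +kernel) (by decide +kernel))
    (hd 19 23 (by decide +kernel) (by decide +kernel))
    (by rw [l2]; exact hd 26 24 (by decide +kernel) (by decide +kernel))
    (by rw [l2]; exact hd 26 25 (by decide +kernel) (by decide +kernel))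
    (hd 20 21 (by decide +kernel) (by decide +kernel))
    (hd 20 22 (by decide +kernel) (by decide +kernel))
    (hd 20 23 (by decide +kernel) (by decide +kernel))
    (hd 20 24 (by decide +kernel) (by decide +kernel))
    (hd 20 25 (by decide +kernel) (by decide +kernel))
    (hd 21 22 (by decide +kernel) (by decide +kernel))
    (hd 21 23 (by decide +kernel) (by decide +kernel))
    (hd 21 24 (by decide +kernel) (by decide +kernel))
    (hd 21 25 (by decide +kernel) (by decide +kernel))
    (hd 22 23 (by decide +kernel) (by decide +kernel))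
    (hd 22 24 (by decide +kernel) (by decide +kernel))
    (hd 22 25 (by decide +kernel) (by decide +kernel))
    (hd 23 24 (by decide +kernel) (by decide +kernel))
    (hd 23 25 (by decide +kernel) (by decide +kernel))
    (hd 24 25 (by decide +kernel) (by decide +kernel))
  have t3 := tri (ψ 27) (ψ 28) (ψ 29) (ψ 30) (ψ 31) (ψ 32) (ψ 33)
    (hR 27) (hR 28) (hR 29) (hR 30) (hR 31) (hR 32) (hR 33)
    (by linarith) (by linarith)
    (hd 27 28 (by decide +kernel) (by decide +kernel))
    (hd 27 29 (by decide +kernel) (by decide +kernel))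
    (hd 27 30 (by decide +kernel) (by decide +kernel))
    (hd 27 31 (by decide +kernel) (by decide +kernel))
    (by rw [l3]; exact hd 34 32 (by decide +kernel) (by decide +kernel))
    (by rw [l3]; exact hd 34 33 (by decide +kernel) (by decide +kernel))
    (hd 28 29 (by decide +kernel) (by decide +kernel))
    (hd 28 30 (by decide +kernel) (by decide +kernel))
    (hd 28 31 (by decide +kernel) (by decide +kernel))
    (hd 28 32 (by decide +kernel) (by decide +kernel))
    (hd 28 33 (by decide +kernel) (by decide +kernel))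
    (hd 29 30 (by decide +kernel) (by decide +kernel))
    (hd 29 31 (by decide +kernel) (by decide +kernel))
    (hd 29 32 (by decide +kernel) (by decide +kernel))
    (hd 29 33 (by decide +kernel) (by decide +kernel))
    (hd 30 31 (by decide +kernel) (by decide +kernel))
    (hd 30 32 (by decide +kernel) (by decide +kernel))
    (hd 30 33 (by decide +kernel) (by decide +kernel))
    (hd 31 32 (by decide +kernel) (by decide +kernel))
    (hd 31 33 (by decide +kernel) (by decide +kernel))
    (hd 32 33 (by decide +kernel) (by decide +kernel))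
  have t := tri (ψ 0) (ψ 1) (ψ 2) (ψ 3) (ψ 11) (ψ 19) (ψ 27)
    (hR 0) (hR 1) (hR 2) (hR 3) (hR 11) (hR 19) (hR 27)
    (by linarith) (by linarith)
    (hd 0 1 (by decide +kernel) (by decide +kernel))
    (hd 0 2 (by decide +kernel) (by decide +kernel))
    (hd 0 3 (by decide +kernel) (by decide +kernel))
    (hd 0 11 (by decide +kernel) (by decide +kernel))
    (by rw [l2]; exact hd 0 26 (by decide +kernel) (by decide +kernel))
    (by rw [l3]; exact hd 0 34 (by decide +kernel) (by decide +kernel))
    (hd 1 2 (by decide +kernel) (by decide +kernel))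
    (hd 1 3 (by decide +kernel) (by decide +kernel))
    (hd 1 11 (by decide +kernel) (by decide +kernel))
    (by rw [l2]; exact hd 1 26 (by decide +kernel) (by decide +kernel))
    (by rw [l3]; exact hd 1 34 (by decide +kernel) (by decide +kernel))
    (hd 2 3 (by decide +kernel) (by decide +kernel))
    (hd 2 11 (by decide +kernel) (by decide +kernel))
    (by rw [l2]; exact hd 2 26 (by decide +kernel) (by decide +kernel))
    (by rw [l3]; exact hd 2 34 (by decide +kernel) (by decide +kernel))
    (hd 3 11 (by decide +kernel) (by decide +kernel))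
    (by rw [l0]; exact hd 10 19 (by decide +kernel) (by decide +kernel))
    (by rw [l0]; exact hd 10 27 (by decide +kernel) (by decide +kernel))
    (by rw [l1]; exact hd 18 19 (by decide +kernel) (by decide +kernel))
    (by rw [l1]; exact hd 18 27 (by decide +kernel) (by decide +kernel))
    (hd 19 27 (by decide +kernel) (by decide +kernel))
  rcases t.2 with h | h | h | h
  exacts [t0.1 h, t1.1 h, t2.1 h, t3.1 h]

lemma not_rich : ¬ HasRichFlow ends 8 := by
  rintro ⟨o, φ, hc, hb, hd⟩
  refine noflow (fun e => if o e then φ e else -φ e) (fun v => ?_) (fun e => ?_) ?_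
  · have := hc v
    rw [← sub_eq_zero, sum_filter, sum_filter, ← sum_sub_distrib] at this ⊢
    refine Eq.trans (sum_congr rfl fun e _ => ?_) this
    cases o e
    · simp only [Bool.false_eq_true, if_false]
      split_ifs <;> ring
    · simp
  · obtain ⟨h1, h2⟩ := hb e
    rw [abs_lt] at h2
    simp only [R, List.mem_cons, List.not_mem_nil, or_false]
    split_ifs <;> omega
  · intro e f h1 h2
    have := hd e f h1 h2
    rw [← Int.natCast_natAbs, ← Int.natCast_natAbs] at this
    split_ifs <;> omega

def step (e f : Fin 35) (M : ℕ) (x : Fin 35) : ℕ :=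
  if x ≠ e ∧ x ≠ f ∧ (M.testBit (ends x).1 ∨ M.testBit (ends x).2) then
    M ||| 2 ^ ((ends x).1 : ℕ) ||| 2 ^ ((ends x).2 : ℕ) else M

def L3 : List (Fin 35) := List.finRange 35 ++ List.finRange 35 ++ List.finRange 35 ++ List.finRange 35 ++ List.finRange 35

def chk2 : Bool := (List.finRange 35).all fun e => (List.finRange 35).all fun f =>
  !(decide (∃ v, Inc ends e v ∧ Inc ends f v)) || L3.foldl (step e f) 1 == 32767

lemma chk2_true : chk2 = true := by decide +kernel

lemma fold_ok (e f : Fin 35) (l : List (Fin 35)) : ∀ M : ℕ,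
    (∀ v : Fin 15, M.testBit v → (del ends {e, f}).Reachable 0 v) →
    ∀ v : Fin 15, (l.foldl (step e f) M).testBit v → (del ends {e, f}).Reachable 0 v := by
  induction l with
  | nil => exact fun M h => h
  | cons x l ih =>
    intro M h
    refine ih (step e f M x) fun v hv => ?_
    unfold step at hv
    split_ifs at hv with hx
    · have hr : (del ends {e, f}).Reachable (ends x).1 (ends x).2 := by
        by_cases hq : (ends x).1 = (ends x).2
        · rw [hq]
        · exact SimpleGraph.Adj.reachable ((SimpleGraph.fromRel_adj _ _ _).2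
            ⟨hq, Or.inl ⟨x, by simp [hx.1, hx.2.1], rfl⟩⟩)
      have h12 : (del ends {e, f}).Reachable 0 (ends x).1 ∧
          (del ends {e, f}).Reachable 0 (ends x).2 := by
        rcases hx.2.2 with h1 | h1
        · exact ⟨h _ h1, (h _ h1).trans hr⟩
        · exact ⟨(h _ h1).trans hr.symm, h _ h1⟩
      simp only [Nat.testBit_or, Nat.testBit_two_pow, Bool.or_eq_true, decide_eq_true_eq] at hv
      rcases hv with (hv | hv) | hv
      · exact h v hv
      · rw [← Fin.ext hv]; exact h12.1
      · rw [← Fin.ext hv]; exact h12.2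
    · exact h v hv

lemma not_cut (e f : Fin 35) (h : ∃ v, Inc ends e v ∧ Inc ends f v) : ¬ Cut ends {e, f} := by
  have h1 := chk2_true
  simp only [chk2, List.all_eq_true, Bool.or_eq_true, Bool.not_eq_true', decide_eq_false_iff_not,
    beq_iff_eq] at h1
  have h2 := (h1 e (List.mem_finRange _) f (List.mem_finRange _)).resolve_left (not_not.2 h)
  have h3 := fold_ok e f L3 1 (by
    intro v hv
    have : v = 0 := by revert v; decide
    rw [this])
  rw [h2] at h3
  have h4 : ∀ v : Fin 15, (del ends {e, f}).Reachable 0 v := fun v => h3 v (by revert v; decide)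
  have h5 : (del ends {e, f}).Preconnected := fun u v => (h4 u).symm.trans (h4 v)
  have h6 := h5.subsingleton_connectedComponent
  have h7 : Nat.card (del ends {e, f}).ConnectedComponent ≤ 1 :=
    Finite.card_le_one_iff_subsingleton.2 h6
  have h8 : 0 < Nat.card (del ends ∅).ConnectedComponent := Nat.card_pos
  unfold Cut
  omega

theorem result : ¬ ∀ (n m : ℕ) (ends : Fin m → Fin n × Fin n),
    (∀ e, (ends e).1 ≠ (ends e).2) → Admissible ends → 5 ≤ maxDeg ends →
    HasRichFlow ends ⌊(3 / 2 : ℚ) * maxDeg ends + 1⌋₊ := by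
  intro h
  have hD : maxDeg ends = 5 := by decide +kernel
  have h1 := h 15 35 ends (by decide +kernel) ⟨fun e => by
    have := not_cut e e ⟨(ends e).1, Or.inl rfl, Or.inl rfl⟩
    rwa [Set.pair_eq_singleton] at this, fun e f _ h => not_cut e f h⟩ hD.ge
  rw [hD, show ⌊(3 / 2 : ℚ) * (5 : ℕ) + 1⌋₊ = 8 by rw [Nat.floor_eq_iff (by norm_num)]; norm_num]
    at h1
  exact not_rich h1

end Pool.Agent.Results.MP_9610b2_co.Counterexample
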